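import Pool.Agent.H28BS.TGolay3

/-!
# Hadamard matrices of order `4 (2a+1) (2b+1) (2c+1) (2d+1)`

For all Golay numbers `a`, `b`, `c`, `d` of the form `2 ^ i * 10 ^ j * 26 ^ k` there is a Hadamard matrix of
order `4 (2a+1) (2b+1) (2c+1) (2d+1)`.

Two Golay pairs give base sequences `BS(n+1, n)` with `2n + 1 = (2a+1) (2b+1)`
(`Pool.Agent.H28BS.base_exists`), Yang's composition with a third pair gives `T`-sequences of length
`(2a+1) (2b+1) (2c+1)` (`Pool.Agent.H28BS.yang_T`), and a new composition of `T`-sequences with a fourth pair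
(`Pool.Agent.H28BS.had_TGolay`) gives four sign sequences of length `(2a+1) (2b+1) (2c+1) (2d+1)` with
vanishing total periodic autocorrelation.
-/

set_option autoImplicit false

open Matrix

namespace Pool.Agent.Results.MP_d8b1b3_co.FourGolayFactors

open Pool.Agent.H28BS

theorem result (i₁ j₁ k₁ i₂ j₂ k₂ i₃ j₃ k₃ i₄ j₄ k₄ n : ℕ)
    (hn : n = 4 * ((2 * (2 ^ i₁ * 10 ^ j₁ * 26 ^ k₁) + 1) * (2 * (2 ^ i₂ * 10 ^ j₂ * 26 ^ k₂) + 1) *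
      (2 * (2 ^ i₃ * 10 ^ j₃ * 26 ^ k₃) + 1) * (2 * (2 ^ i₄ * 10 ^ j₄ * 26 ^ k₄) + 1))) :
    ∃ H : Matrix (Fin n) (Fin n) ℤ,
      (∀ x y, H x y = 1 ∨ H x y = -1) ∧ H * Hᵀ = (n : ℤ) • (1 : Matrix (Fin n) (Fin n) ℤ) := by
  have hgn : ∀ i j k : ℕ, 1 ≤ 2 ^ i * 10 ^ j * 26 ^ k ∧ GolayNumber (2 ^ i * 10 ^ j * 26 ^ k) := by
    intro i j k
    obtain ⟨P, Q, h⟩ := gp_exists i j k
    exact ⟨Nat.one_le_iff_ne_zero.2 (by positivity), golayNumber_of_gp h⟩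
  have key := had_four (hgn i₁ j₁ k₁).1 (hgn i₂ j₂ k₂).1 (hgn i₄ j₄ k₄).1 (hgn i₁ j₁ k₁).2
    (hgn i₂ j₂ k₂).2 (hgn i₃ j₃ k₃).2 (hgn i₄ j₄ k₄).2
  rw [← hn] at key
  exact key

end Pool.Agent.Results.MP_d8b1b3_co.FourGolayFactors
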