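import Pool.Agent.Helper210_Half.Main

/-!
# Half of a Hadamard matrix in every large order, without any hypothesis

For every `A` and all large `n` divisible by four there are two `m × n` sign matrices `X`, `Y` with
`n - 2 m ≤ n / (log n) ^ A` and `X Xᵀ = Y Yᵀ = n I`, `X Yᵀ = (n - 2 m) I`. So `X` alone is a
partial Hadamard matrix with `(1 - o(1)) n / 2` rows, and among the `2 m = (1 - o(1)) n` rows of
`X` and `Y` together every row is orthogonal to all the others but one.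
-/

namespace Pool.Agent.Results.MP_d8b1b3_co.HalfUnconditional

theorem result : ∀ A : ℕ, ∃ n₀ : ℕ, ∀ n : ℕ, n₀ ≤ n → 4 ∣ n →
    ∃ m : ℕ, 2 * m ≤ n ∧ (n : ℝ) - 2 * m ≤ n / Real.log n ^ A ∧
    ∃ X Y : Matrix (Fin m) (Fin n) ℤ, (∀ i j, X i j = 1 ∨ X i j = -1) ∧
      (∀ i j, Y i j = 1 ∨ Y i j = -1) ∧
      X * X.transpose = (n : ℤ) • (1 : Matrix (Fin m) (Fin m) ℤ) ∧
      Y * Y.transpose = (n : ℤ) • (1 : Matrix (Fin m) (Fin m) ℤ) ∧
      X * Y.transpose = ((n - 2 * m : ℕ) : ℤ) • (1 : Matrix (Fin m) (Fin m) ℤ) :=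
  Pool.Agent.Helper210.Half.main

end Pool.Agent.Results.MP_d8b1b3_co.HalfUnconditional
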