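import Pool.Agent.H28BS.TGolay3

/-!
# `T`-functions times a Golay pair

Let `K` be a finite abelian group with four functions `T 0`, …, `T 3 : K → {0, 1, -1}`, exactly one of which is
nonzero at each point, whose periodic autocorrelations sum to zero at each nonzero shift (`T`-functions; for
`K` cyclic of order `t` these are circulant `T`-matrices of order `t`, for instance from `T`-sequences of
length `t`). For every Golay number `g` there is a Hadamard matrix of order `4 |K| (2g+1)`.

Put `a = T 0 + T 1`, `c = T 0 - T 1`, `b = T 2 + T 3`, `d = T 2 - T 3`, let `F`, `G` be the Golay pair, `F*`, `G*`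
the reversed sequences and `a'`, `b'`, `c'`, `d'` the functions composed with the inversion of `K`. The
Goethals-Seidel array is applied to the four sign functions on `K × ZMod (2g+1)`

* `[F* d - G c | a + d | -F a - G b]`,
* `[G* d + F c | b + c | G* a - F* b]`,
* `[G a' - F b' | c' - b' | -F* c' - G d']`,
* `[F* a' + G* b' | a' - d' | F d' - G* c']`,

where the three parts live on `[0, g)`, `{g}` and `[g+1, 2g+1)`.
-/

set_option autoImplicit false

open Matrix

namespace Pool.Agent.Results.MP_d8b1b3_co.TFunctionsTimesGolay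

open Pool.Agent.H28BS

theorem result (K : Type) [AddCommGroup K] [Fintype K] (T : Fin 4 → K → ℤ)
    (hT : ∀ x, ∃ e, (T e x = 1 ∨ T e x = -1) ∧ ∀ e', e' ≠ e → T e' x = 0)
    (hP : ∀ s, s ≠ 0 → ∑ e, ∑ x, T e x * T e (x + s) = 0) (g n : ℕ) (hg : 1 ≤ g)
    (hG : GolayNumber g) (hn : n = 4 * (Fintype.card K * (2 * g + 1))) :
    ∃ H : Matrix (Fin n) (Fin n) ℤ,
      (∀ x y, H x y = 1 ∨ H x y = -1) ∧ H * Hᵀ = (n : ℤ) • (1 : Matrix (Fin n) (Fin n) ℤ) := by
  have key := had_T T hT hP hg hG
  rw [← hn] at key
  exact key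

end Pool.Agent.Results.MP_d8b1b3_co.TFunctionsTimesGolay
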