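import Pool.Agent.H28BS.Exist
import Pool.Agent.H28BS.HadYang2
import Pool.Agent.H28BS.Turyn2

/-!
# Hadamard matrices of order `4 (2a+1) (2b+1) (2c+1) w`

For all Golay numbers `a`, `b`, `c` of the form `2 ^ i * 10 ^ j * 26 ^ k` there is a Hadamard matrix of order
`4 (2a+1) (2b+1) (2c+1) w` for `w = 1`, for `w = (q+1)/2` with `q` a prime power, `q = 1 (mod 4)`, and more
generally whenever `w` is the order of a finite abelian group with four symmetric sign functions whose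
periodic autocorrelations cancel (Williamson functions).

The proof makes base sequences `BS(n+1, n)` with `2n + 1 = (2a+1) (2b+1)` out of two Golay pairs
(`Pool.Agent.H28BS.base_exists`) and puts them in Yang's composition with a third Golay pair
(`Pool.Agent.H28BS.yang_T`), which yields `T`-sequences of length `(2a+1) (2b+1) (2c+1)`. These go into the
Goethals-Seidel array together with the Williamson functions (`Pool.Agent.H28BS.had_general`). Williamson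
functions of order `(q+1)/2` (Turyn, Whiteman) are in `Pool.Agent.H28BS.turyn`.
-/

set_option autoImplicit false

open Matrix

namespace Pool.Agent.Results.MP_d8b1b3_co.ThreeGolayFactors

open Pool.Agent.H28BS

theorem main (i₁ j₁ k₁ i₂ j₂ k₂ i₃ j₃ k₃ : ℕ) {K : Type} [AddCommGroup K] [Fintype K] [DecidableEq K]
    (W : Fin 4 → K → ℤ) (hW : ∀ e x, W e x = 1 ∨ W e x = -1) (hsymm : ∀ e x, W e (-x) = W e x)
    (hpaf : ∀ s, s ≠ 0 → ∑ e, ∑ x, W e x * W e (x + s) = 0) :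
    Pool.Agent.TH394.HadOrder (4 * ((2 * (2 ^ i₁ * 10 ^ j₁ * 26 ^ k₁) + 1) * (2 * (2 ^ i₂ * 10 ^ j₂ * 26 ^ k₂) + 1) *
      (2 * (2 ^ i₃ * 10 ^ j₃ * 26 ^ k₃) + 1) * Fintype.card K)) := by
  obtain ⟨P, Q, h1⟩ := gp_exists i₁ j₁ k₁
  obtain ⟨P', Q', h2⟩ := gp_exists i₂ j₂ k₂
  obtain ⟨F, G, h3⟩ := gp_exists i₃ j₃ k₃
  obtain ⟨s, hs⟩ : ∃ s, s = 2 ^ i₁ * 10 ^ j₁ * 26 ^ k₁ := ⟨_, rfl⟩
  obtain ⟨g, hg⟩ : ∃ g, g = 2 ^ i₂ * 10 ^ j₂ * 26 ^ k₂ := ⟨_, rfl⟩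
  obtain ⟨r, hr⟩ : ∃ r, r = 2 ^ i₃ * 10 ^ j₃ * 26 ^ k₃ := ⟨_, rfl⟩
  rw [← hs] at h1 ⊢
  rw [← hg] at h2 ⊢
  rw [← hr] at h3 ⊢
  have hs1 : 1 ≤ s := by rw [hs]; exact Nat.one_le_iff_ne_zero.2 (by positivity)
  have hg1 : 1 ≤ g := by rw [hg]; exact Nat.one_le_iff_ne_zero.2 (by positivity)
  obtain ⟨A, B, C, D, hb⟩ := base_exists hs1 hg1 (golayNumber_of_gp h1) (golayNumber_of_gp h2)
  have hm : 1 ≤ 2 * s * g + s + g := by omega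
  have key := had_general hm hb h3 (W 0) (W 1) (W 2) (W 3) (hW 0) (hW 1) (hW 2) (hW 3)
    (hsymm 0) (hsymm 1) (hsymm 2) (hsymm 3) (fun x hx => by
      have := hpaf x hx
      rw [Fin.sum_univ_four] at this
      exact this)
  have e : 2 * (2 * s * g + s + g) + 1 = (2 * s + 1) * (2 * g + 1) := by ring
  rw [e] at key
  exact key

theorem result :
    (∀ i₁ j₁ k₁ i₂ j₂ k₂ i₃ j₃ k₃ w n : ℕ,
      (w = 1 ∨ ∃ q : ℕ, IsPrimePow q ∧ q % 4 = 1 ∧ 2 * w = q + 1) →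
      n = 4 * ((2 * (2 ^ i₁ * 10 ^ j₁ * 26 ^ k₁) + 1) * (2 * (2 ^ i₂ * 10 ^ j₂ * 26 ^ k₂) + 1) *
        (2 * (2 ^ i₃ * 10 ^ j₃ * 26 ^ k₃) + 1) * w) →
      ∃ H : Matrix (Fin n) (Fin n) ℤ,
        (∀ x y, H x y = 1 ∨ H x y = -1) ∧ H * Hᵀ = (n : ℤ) • (1 : Matrix (Fin n) (Fin n) ℤ)) ∧
    (∀ (K : Type) [AddCommGroup K] [Fintype K] (W : Fin 4 → K → ℤ),
      (∀ e x, W e x = 1 ∨ W e x = -1) → (∀ e x, W e (-x) = W e x) →
      (∀ s, s ≠ 0 → ∑ e, ∑ x, W e x * W e (x + s) = 0) →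
      ∀ i₁ j₁ k₁ i₂ j₂ k₂ i₃ j₃ k₃ n : ℕ,
      n = 4 * ((2 * (2 ^ i₁ * 10 ^ j₁ * 26 ^ k₁) + 1) * (2 * (2 ^ i₂ * 10 ^ j₂ * 26 ^ k₂) + 1) *
        (2 * (2 ^ i₃ * 10 ^ j₃ * 26 ^ k₃) + 1) * Fintype.card K) →
      ∃ H : Matrix (Fin n) (Fin n) ℤ,
        (∀ x y, H x y = 1 ∨ H x y = -1) ∧ H * Hᵀ = (n : ℤ) • (1 : Matrix (Fin n) (Fin n) ℤ)) := by
  refine ⟨fun i₁ j₁ k₁ i₂ j₂ k₂ i₃ j₃ k₃ w n hw hn => ?_, ?_⟩
  · rcases hw with rfl | ⟨q, hq, hq4, hqw⟩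
    · have key := main i₁ j₁ k₁ i₂ j₂ k₂ i₃ j₃ k₃ (K := Unit) (fun _ _ => 1) (fun _ _ => Or.inl rfl)
        (fun _ _ => rfl) (fun s hs => absurd (Subsingleton.elim s 0) hs)
      rw [Fintype.card_unit, ← hn] at key
      exact key
    · obtain ⟨K, _, _, W, hK, hW, hsymm, hpaf⟩ := turyn q hq hq4
      classical
      have key := main i₁ j₁ k₁ i₂ j₂ k₂ i₃ j₃ k₃ W hW hsymm hpaf
      have e : Fintype.card K = w := by omega
      rw [e, ← hn] at key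
      exact key
  · intro K _ _ W hW hsymm hpaf i₁ j₁ k₁ i₂ j₂ k₂ i₃ j₃ k₃ n hn
    classical
    have key := main i₁ j₁ k₁ i₂ j₂ k₂ i₃ j₃ k₃ W hW hsymm hpaf
    rw [← hn] at key
    exact key

end Pool.Agent.Results.MP_d8b1b3_co.ThreeGolayFactors
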